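import Pool.Agent.Q82.Basilica5

/-! # MP_6db48f_an, Q1: the gap labels of the KNS measure are dyadic rationals -/

namespace Pool.Agent.Results.MP_6db48f_an.DyadicLabels

open MeasureTheory Q82.Bas

/-- The spectral counting measures of the Laplacians `1 - A/4` of the Schreier graphs of the
basilica group have a weak limit, a probability measure `μ`; and for every `x` outside the closed
support of such a limit `μ`, the number `μ((-∞, x])` is a dyadic rational. -/
theorem result :
    (∃ μ : Measure ℝ, IsProbabilityMeasure μ ∧ IsKNS μ) ∧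
    ∀ μ : Measure ℝ, IsProbabilityMeasure μ → IsKNS μ →
      ∀ x : ℝ, x ∉ μ.support → ∃ j k : ℕ, (μ (Set.Iic x)).toReal = (j : ℝ) / 2 ^ k :=
  ⟨exists_kns, fun μ _ hμ x hx => dyadic μ hμ x hx⟩

end Pool.Agent.Results.MP_6db48f_an.DyadicLabels
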